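import Pool.Agent.Run7.h388.FB.Split
import Pool.Agent.W431.Blk.Fam

/-!
# Forms in blocks of variables: the Hilbert function
-/

set_option autoImplicit false
set_option linter.unusedSectionVars false

open MvPolynomial H350MG

namespace Pool.Agent.Run7.h388.FB

noncomputable section

variable {K : Type} [Field K] [CharZero K] {σ : Type} [Fintype σ] [DecidableEq σ]

/-- the ideal generated by the forms of a list -/
def gens (l : List (MvPolynomial σ K × ℕ)) : Set (MvPolynomial σ K) := {x | ∃ c ∈ l, c.1 = x}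

lemma qd_nil (k : ℕ) : qd ([] : List (MvPolynomial σ K × ℕ)) k = gj σ k := by
  have h0 : Module.finrank K (J ([] : List (MvPolynomial σ K × ℕ)) k) = 0 := finrank_bot K (MvPolynomial σ K)
  rw [qd, h0, Nat.cast_zero, sub_zero]

/-- one more form -/
lemma qd_step {D : ℕ} {c : MvPolynomial σ K × ℕ} {l : List (MvPolynomial σ K × ℕ)} (hc : c.1 ∈ Rj K σ c.2)
    (hl : ∀ c' ∈ l, c'.1 ∈ Rj K σ c'.2)
    (hreg : ∀ k ≤ D, c.2 ≤ k → c.1 ≠ 0 ∧ ∀ G ∈ Rj K σ (k - c.2), c.1 * G ∈ Ideal.span (gens l) → G ∈ Ideal.span (gens l))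
    (ih : ∀ k ≤ D, qd l k = E (gj σ) (l.map Prod.snd) k) :
    ∀ k ≤ D, qd (c :: l) k = E (gj σ) ((c :: l).map Prod.snd) k := by
  intro k hk
  rw [List.map_cons]
  simp only [E]
  have ihk := ih k hk
  by_cases hdk : c.2 ≤ k
  · rw [if_pos hdk]
    obtain ⟨hne, hr⟩ := hreg k hk hdk
    have ihk' := ih (k - c.2) (by omega)
    have h1 := finrank_J_cons (c := c) (l := l) hc hl hdk
    have h2 := Pool.Agent.W431.Blk.finrank_J_cons_ge (c := c) (l := l) hc hl hdk hne (by
      intro G hG hGJ
      rw [Pool.Agent.W431.Blk.mem_J_iff hl] at hGJ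
      rw [Pool.Agent.W431.Blk.mem_J_iff hl]
      exact ⟨hr G hG hGJ.1, hG⟩)
    have h3 : (Module.finrank K (J (c :: l) k) : ℤ) + Module.finrank K (J l (k - c.2)) =
        Module.finrank K (J l k) + Module.finrank K (Rj K σ (k - c.2)) := by
      exact_mod_cast le_antisymm h1 h2
    rw [← ihk, ← ihk']
    unfold qd
    rw [finrank_Rj'] at h3
    linarith
  · rw [if_neg hdk, sub_zero, ← ihk]
    unfold qd
    rw [J, Jt, if_neg hdk, sup_bot_eq]

/-- the powers of the variables -/
def mons (d : σ → ℕ) (L : List σ) : List (MvPolynomial σ K × ℕ) := L.map fun i => (X i ^ d i, d i)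

lemma mons_good (d : σ → ℕ) (L : List σ) : ∀ c ∈ mons (K := K) d L, c.1 ∈ Rj K σ c.2 := by
  intro c hc
  rw [mons, List.mem_map] at hc
  obtain ⟨i, _, rfl⟩ := hc
  exact isHomogeneous_X_pow i (d i)

lemma gens_mons (d : σ → ℕ) (L : List σ) : gens (mons (K := K) d L) =
    (fun s => monomial s (1 : K)) '' {s | ∃ j ∈ L, s = Finsupp.single j (d j)} := by
  ext x
  constructor
  · rintro ⟨c, hc, rfl⟩
    rw [mons, List.mem_map] at hc
    obtain ⟨i, hi, rfl⟩ := hc
    exact ⟨Finsupp.single i (d i), ⟨i, hi, rfl⟩, by rw [X_pow_eq_monomial]⟩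
  · rintro ⟨s, ⟨j, hj, rfl⟩, rfl⟩
    refine ⟨(X j ^ d j, d j), ?_, ?_⟩
    · rw [mons, List.mem_map]
      exact ⟨j, hj, rfl⟩
    · rw [X_pow_eq_monomial]

lemma mon_regular (d : σ → ℕ) {L : List σ} {i : σ} (hi : i ∉ L) {G : MvPolynomial σ K}
    (h : X i ^ d i * G ∈ Ideal.span (gens (mons (K := K) d L))) : G ∈ Ideal.span (gens (mons (K := K) d L)) := by
  rw [gens_mons, mem_ideal_span_monomial_image] at h ⊢
  intro m hm
  have h1 : m + Finsupp.single i (d i) ∈ (X i ^ d i * G).support := by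
    rw [mem_support_iff] at hm ⊢
    rw [X_pow_eq_monomial, add_comm m, coeff_monomial_mul, one_mul]
    exact hm
  obtain ⟨s, ⟨j, hj, rfl⟩, hs⟩ := h _ h1
  refine ⟨_, ⟨j, hj, rfl⟩, ?_⟩
  have hne : i ≠ j := fun e => hi (e ▸ hj)
  have h2 := hs j
  rw [Finsupp.single_eq_same, Finsupp.add_apply, Finsupp.single_apply, if_neg hne, add_zero] at h2
  rw [Finsupp.single_le_iff]
  exact h2

lemma qd_mons (d : σ → ℕ) (D : ℕ) : ∀ L : List σ, L.Nodup → ∀ k ≤ D,
    qd (mons (K := K) d L) k = E (gj σ) ((mons (K := K) d L).map Prod.snd) k := by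
  intro L
  induction L with
  | nil => exact fun _ k _ => qd_nil k
  | cons i L ih =>
    intro hnd
    rw [List.nodup_cons] at hnd
    refine qd_step (c := (X i ^ d i, d i)) (isHomogeneous_X_pow i (d i)) (mons_good d L) (fun k _ _ => ⟨?_, fun G _ hG => ?_⟩)
      (ih hnd.2)
    · exact pow_ne_zero _ (X_ne_zero i)
    · exact mon_regular d hnd.1 hG

variable {κ : Type} [DecidableEq κ]

/-- the sum of the variables of the block `b` -/
def bl (K : Type) [Field K] (β : σ → κ) (b : κ) : MvPolynomial σ K := ∑ i, if β i = b then X i else 0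

lemma bl_eq (β : σ → κ) (b : κ) : bl K β b = ∑ i : {i // β i = b}, X i.1 := by
  unfold bl
  rw [← Fintype.sum_subtype_add_sum_subtype (fun i => β i = b)]
  rw [Finset.sum_congr rfl fun (i : {i // β i = b}) _ => if_pos i.2,
    Finset.sum_congr rfl fun (i : {i // ¬ β i = b}) _ => if_neg i.2, Finset.sum_const_zero, add_zero]

lemma bl_hom (β : σ → κ) (b : κ) : (bl K β b).IsHomogeneous 1 := by
  rw [bl_eq]
  exact MvPolynomial.IsHomogeneous.sum _ _ _ fun _ _ => MvPolynomial.isHomogeneous_X _ _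

lemma bl_rename (β : σ → κ) {b c : κ} (h : c ≠ b) : ∃ g' : MvPolynomial {i // ¬ β i = b} K,
    bl K β c = rename (Subtype.val : {i // ¬ β i = b} → σ) g' := by
  refine ⟨∑ t : {i // ¬ β i = b}, if β t.1 = c then X t else 0, ?_⟩
  unfold bl
  rw [← Fintype.sum_subtype_add_sum_subtype (fun i => β i = b), map_sum]
  have h1 : ∑ i : {i // β i = b}, (if β i.1 = c then (X i.1 : MvPolynomial σ K) else 0) = 0 := by
    refine Finset.sum_eq_zero fun i _ => ?_
    rw [if_neg]
    rw [i.2]
    exact h.symm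
  rw [h1, zero_add]
  refine Finset.sum_congr rfl fun t _ => ?_
  split_ifs
  · rw [rename_X]
  · rw [map_zero]

lemma bl_ne (β : σ → κ) {b : κ} {i : σ} (hi : β i = b) : bl K β b ≠ 0 := by
  intro h
  have h1 := congrArg (eval (Pi.single i (1 : K))) h
  rw [map_zero] at h1
  unfold bl at h1
  rw [map_sum, Finset.sum_eq_single i] at h1
  · rw [if_pos hi, eval_X, Pi.single_eq_same] at h1
    exact one_ne_zero h1
  · intro j _ hj
    split_ifs
    · rw [eval_X, Pi.single_eq_of_ne hj]
    · rw [map_zero]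
  · intro h
    exact absurd (Finset.mem_univ _) h

/-- the powers of the sums of the blocks -/
def bls (β : σ → κ) (e : κ → ℕ) (L : List κ) : List (MvPolynomial σ K × ℕ) := L.map fun b => (bl K β b ^ e b, e b)

/-- **the Hilbert function of the family** -/
theorem qd_blocks {d : σ → ℕ} (hd : ∀ i, 1 ≤ d i) {M : List σ} (hM : M.Nodup) (hM' : ∀ i, i ∈ M) (β : σ → κ) {e : κ → ℕ}
    (he : ∀ b, 1 ≤ e b) {D : ℕ} (hD : ∀ b, 2 * D ≤ e b + ∑ i : {i // β i = b}, (d i - 1)) :
    ∀ L : List κ, L.Nodup → ∀ k ≤ D, qd (bls (K := K) β e L ++ mons d M) k =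
      E (gj σ) ((bls (K := K) β e L ++ mons d M).map Prod.snd) k := by
  intro L
  induction L with
  | nil => exact fun _ => qd_mons d D M hM
  | cons b L ih =>
    intro hnd
    rw [List.nodup_cons] at hnd
    refine qd_step (c := (bl K β b ^ e b, e b)) ?_ ?_ (fun k hk hek => ⟨?_, fun G hG hG' => ?_⟩) (ih hnd.2)
    · have := (bl_hom (K := K) β b).pow (e b)
      rwa [one_mul] at this
    · intro c hc
      rcases List.mem_append.1 hc with hc | hc
      · rw [List.mem_map] at hc
        obtain ⟨b', _, rfl⟩ := hc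
        have := (bl_hom (K := K) β b').pow (e b')
        rwa [one_mul] at this
      · exact mons_good d M c hc
    · -- the block is not empty
      have h1 := hD b
      have h2 := he b
      have h3 : 0 < ∑ i : {i // β i = b}, (d i - 1) := by
        simp only at hek
        omega
      obtain ⟨i, _, _⟩ := Finset.exists_ne_zero_of_sum_ne_zero h3.ne'
      exact pow_ne_zero _ (bl_ne β i.2)
    · have h1 := hD b
      simp only at hek hG
      refine block_regular (p := fun i => β i = b) hd ?_ ?_ (e := e b) (g := k - e b) (P := G) ?_ ?_ ?_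
      · rintro g ⟨c, hc, rfl⟩
        rcases List.mem_append.1 hc with hc | hc
        · rw [List.mem_map] at hc
          obtain ⟨b', hb', rfl⟩ := hc
          right
          have hne : b' ≠ b := fun h => hnd.1 (h ▸ hb')
          obtain ⟨g', hg'⟩ := bl_rename (K := K) β hne
          exact ⟨g' ^ e b', by rw [map_pow, ← hg']⟩
        · rw [mons, List.mem_map] at hc
          obtain ⟨i, _, rfl⟩ := hc
          by_cases hi : β i = b
          · exact Or.inl ⟨i, hi, rfl⟩
          · exact Or.inr ⟨X ⟨i, hi⟩ ^ d i, by rw [map_pow, rename_X]⟩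
      · intro i _
        refine Ideal.subset_span ⟨(X i ^ d i, d i), List.mem_append_right _ ?_, rfl⟩
        rw [mons, List.mem_map]
        exact ⟨i, hM' i, rfl⟩
      · exact IsHomogeneous.totalDegree_le hG
      · omega
      · rw [← bl_eq]
        exact hG'

end

end Pool.Agent.Run7.h388.FB
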