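import Mathlib

/-!
# The Lefschetz property of monomial complete intersections over a commutative ring in which the positive integers are units

The proof is that of `Pool.Agent.Helper720.Level.ci_inj` (starting tree, for fields).
-/

set_option autoImplicit false

open MvPolynomial

namespace Pool.Agent.Run7.h388.FB

variable {ι : Type} [Fintype ι] [DecidableEq ι] {A : Type} [CommRing A]

/-- the lowering operator attached to `w` -/
noncomputable def low (w : ι →₀ ℕ) (f : MvPolynomial ι A) : MvPolynomial ι A :=
  ∑ j, (C (w j : A) * pderiv j f - X j * pderiv j (pderiv j f))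

lemma sub_single_same {m : ι →₀ ℕ} {j : ι} (a : ℕ) : (m - Finsupp.single j a) j = m j - a := by
  rw [Finsupp.tsub_apply, Finsupp.single_eq_same]

lemma coeff_low (w : ι →₀ ℕ) (f : MvPolynomial ι A) (m : ι →₀ ℕ) :
    (low w f).coeff m =
      ∑ j, ((w j : A) - (m j : A)) * ((m j : A) + 1) * f.coeff (m + Finsupp.single j 1) := by
  unfold low
  rw [coeff_sum]
  refine Finset.sum_congr rfl fun j _ => ?_
  rw [coeff_sub, coeff_C_mul, coeff_pderiv, coeff_X_mul']
  by_cases hj : m j = 0
  · rw [if_neg (by simpa using hj), hj]
    push_cast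
    ring
  · have h1 : m - Finsupp.single j 1 + Finsupp.single j 1 = m := by
      apply tsub_add_cancel_of_le
      rw [Finsupp.single_le_iff]
      omega
    have h2 : (((m - Finsupp.single j 1 : ι →₀ ℕ) j : ℕ) : A) + 1 = m j := by
      rw [sub_single_same, Nat.cast_sub (by omega)]
      push_cast
      ring
    rw [if_pos (by simpa using hj), coeff_pderiv, h1, h2, coeff_pderiv]
    ring

lemma low_below {w : ι →₀ ℕ} {f : MvPolynomial ι A} (hf : ∀ m, m ≤ w → f.coeff m = 0) :
    ∀ m, m ≤ w → (low w f).coeff m = 0 := by
  intro m hm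
  rw [coeff_low]
  refine Finset.sum_eq_zero fun j _ => ?_
  by_cases hj : m j = w j
  · rw [hj, sub_self, zero_mul, zero_mul]
  · have h1 : m + Finsupp.single j 1 ≤ w := by
      intro k
      have h2 := hm k
      by_cases hk : j = k
      · subst hk
        rw [Finsupp.add_apply, Finsupp.single_eq_same]
        omega
      · rw [Finsupp.add_apply, Finsupp.single_apply, if_neg hk, add_zero]
        exact h2
    rw [hf _ h1, mul_zero]

lemma low_hom {w : ι →₀ ℕ} {f : MvPolynomial ι A} {i : ℕ} (hf : f.IsHomogeneous (i + 1)) :
    (low w f).IsHomogeneous i := by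
  intro m hm
  rw [coeff_low] at hm
  obtain ⟨j, _, hj⟩ := Finset.exists_ne_zero_of_sum_ne_zero hm
  have h1 : f.coeff (m + Finsupp.single j 1) ≠ 0 := right_ne_zero_of_mul hj
  have h2 : (m + Finsupp.single j 1).degree = i + 1 := by
    by_contra hne
    exact h1 (hf.coeff_eq_zero hne)
  rw [map_add, Finsupp.degree_single] at h2
  have h3 : m.degree = i := by omega
  rw [← h3, Finsupp.degree_eq_weight_one]
  rfl

lemma low_zero {w : ι →₀ ℕ} {f : MvPolynomial ι A} (hf : f.IsHomogeneous 0) : low w f = 0 := by
  ext m
  rw [coeff_low, coeff_zero]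
  refine Finset.sum_eq_zero fun j _ => ?_
  rw [hf.coeff_eq_zero, mul_zero]
  rw [map_add, Finsupp.degree_single]
  omega

variable (ι A) in
/-- the sum of the variables -/
noncomputable def el : MvPolynomial ι A := ∑ j, X j

lemma el_hom : (el ι A).IsHomogeneous 1 :=
  MvPolynomial.IsHomogeneous.sum _ _ _ fun _ _ => MvPolynomial.isHomogeneous_X _ _

lemma coeff_el_mul (f : MvPolynomial ι A) (m : ι →₀ ℕ) :
    (el ι A * f).coeff m = ∑ j, (if m j = 0 then 0 else f.coeff (m - Finsupp.single j 1)) := by
  unfold el
  rw [Finset.sum_mul, MvPolynomial.coeff_sum]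
  refine Finset.sum_congr rfl fun j _ => ?_
  rw [MvPolynomial.coeff_X_mul']
  by_cases h : m j = 0
  · rw [if_pos h, if_neg (by simpa using h)]
  · rw [if_neg h, if_pos (by simpa using h)]

lemma pderiv_el (j : ι) : pderiv j (el ι A) = 1 := by
  classical
  unfold el
  rw [map_sum, Finset.sum_eq_single j]
  · simp
  · intro k _ hk
    exact pderiv_X_of_ne hk
  · intro h
    exact absurd (Finset.mem_univ _) h

lemma low_el_mul (w : ι →₀ ℕ) {f : MvPolynomial ι A} {i : ℕ} (hf : f.IsHomogeneous i) :
    low w (el ι A * f) = el ι A * low w f + C ((w.degree : A) - 2 * i) * f := by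
  unfold low
  have h1 : ∀ j, pderiv j (el ι A * f) = f + el ι A * pderiv j f := by
    intro j
    rw [pderiv_mul, pderiv_el, one_mul]
  have h2 : ∀ j, pderiv j (f + el ι A * pderiv j f) =
      2 * pderiv j f + el ι A * pderiv j (pderiv j f) := by
    intro j
    rw [map_add, pderiv_mul, pderiv_el, one_mul]
    ring
  have h3 : ∀ j : ι, C (w j : A) * pderiv j (el ι A * f) -
      X j * pderiv j (pderiv j (el ι A * f)) =
      C (w j : A) * f + el ι A * (C (w j : A) * pderiv j f - X j * pderiv j (pderiv j f)) -
        2 * (X j * pderiv j f) := by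
    intro j
    rw [h1, h2]
    ring
  rw [Finset.sum_congr rfl fun j _ => h3 j, Finset.sum_sub_distrib, Finset.sum_add_distrib,
    ← Finset.sum_mul, ← Finset.mul_sum, ← Finset.mul_sum, hf.sum_X_mul_pderiv]
  have h4 : (∑ j, C (w j : A) : MvPolynomial ι A) = C (w.degree : A) := by
    rw [Finsupp.degree_eq_sum, Nat.cast_sum, map_sum]
  rw [h4, map_sub, map_mul]
  have h5 : (C (2 : A) : MvPolynomial ι A) = 2 := by
    rw [← map_ofNat (C : A →+* MvPolynomial ι A) 2]
  have h6 : (C (i : A) : MvPolynomial ι A) = (i : MvPolynomial ι A) := by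
    rw [map_natCast]
  rw [h5, h6, nsmul_eq_mul]
  ring

lemma low_el_pow (w : ι →₀ ℕ) {f : MvPolynomial ι A} {i : ℕ} (hf : f.IsHomogeneous i) (k : ℕ) :
    low w (el ι A ^ (k + 1) * f) = el ι A ^ (k + 1) * low w f +
      C (((k : A) + 1) * ((w.degree : A) - 2 * i - k)) * (el ι A ^ k * f) := by
  induction k with
  | zero =>
    rw [zero_add, pow_one, low_el_mul w hf]
    push_cast
    ring_nf
  | succ k ih =>
    have h1 : (el ι A ^ (k + 1) * f).IsHomogeneous (k + 1 + i) := by
      have := (el_hom (A := A) (ι := ι)).pow (k + 1)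
      rw [one_mul] at this
      exact this.mul hf
    have h2 : el ι A ^ (k + 1 + 1) * f = el ι A * (el ι A ^ (k + 1) * f) := by ring
    rw [h2, low_el_mul w h1, ih]
    push_cast
    simp only [map_mul, map_sub, map_add, map_one, map_ofNat]
    ring

lemma el_pow_below {w : ι →₀ ℕ} (r : ℕ) : ∀ (g : MvPolynomial ι A), (∀ m, m ≤ w → g.coeff m = 0) →
    ∀ m, m ≤ w → (el ι A ^ r * g).coeff m = 0 := by
  induction r with
  | zero => intro g hg; simpa using hg
  | succ r ihr =>
    intro g hg m hm
    have h8 : el ι A ^ (r + 1) * g = el ι A * (el ι A ^ r * g) := by ring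
    rw [h8, coeff_el_mul]
    refine Finset.sum_eq_zero fun j _ => ?_
    by_cases hj : m j = 0
    · rw [if_pos hj]
    · rw [if_neg hj, ihr g hg _ (tsub_le_self.trans hm)]

/-- **Lefschetz property of monomial complete intersections, injectivity** -/
lemma lef_inj (hu : ∀ n : ℕ, n ≠ 0 → IsUnit (n : A)) (w : ι →₀ ℕ) : ∀ (i k : ℕ) (f : MvPolynomial ι A),
    f.IsHomogeneous i → k + 2 * i ≤ w.degree →
    (∀ m, m ≤ w → (el ι A ^ k * f).coeff m = 0) → ∀ m, m ≤ w → f.coeff m = 0 := by
  intro i
  induction i with
  | zero =>
    intro k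
    induction k with
    | zero =>
      intro f _ _ h
      simpa using h
    | succ k ih =>
      intro f hf hk h
      have h1 := low_below h
      rw [low_el_pow w hf, low_zero hf, mul_zero, zero_add] at h1
      apply ih f hf (by omega)
      intro m hm
      have h2 := h1 m hm
      rw [coeff_C_mul] at h2
      have h4 : ((w.degree : A) - 2 * ((0 : ℕ) : A) - k) = ((w.degree - k : ℕ) : A) := by
        rw [Nat.cast_sub (by omega)]
        push_cast
        ring
      have h5 : IsUnit (((k : A) + 1) * ((w.degree : A) - 2 * ((0 : ℕ) : A) - k)) := by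
        rw [h4]
        have h3 : IsUnit ((k + 1 : ℕ) : A) := hu _ (Nat.succ_ne_zero k)
        push_cast at h3
        exact h3.mul (hu _ (by omega))
      exact (h5.mul_right_eq_zero).1 h2
  | succ i ihi =>
    intro k
    induction k with
    | zero =>
      intro f _ _ h
      simpa using h
    | succ k ih =>
      intro f hf hk h
      have h1 := low_below h
      rw [low_el_pow w hf] at h1
      have h5 : ∀ m, m ≤ w → (low w f).coeff m = 0 := by
        apply ihi (k + 2) (low w f) (low_hom hf) (by omega)
        intro m hm
        have h6 : el ι A ^ (k + 2) * low w f = el ι A * (el ι A ^ (k + 1) * low w f +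
            C (((k : A) + 1) * ((w.degree : A) - 2 * ((i + 1 : ℕ) : A) - k)) *
              (el ι A ^ k * f)) -
            C (((k : A) + 1) * ((w.degree : A) - 2 * ((i + 1 : ℕ) : A) - k)) *
              (el ι A ^ (k + 1) * f) := by
          ring
        rw [h6, coeff_sub, coeff_C_mul, h m hm, mul_zero, sub_zero, coeff_el_mul]
        refine Finset.sum_eq_zero fun j _ => ?_
        by_cases hj : m j = 0
        · rw [if_pos hj]
        · rw [if_neg hj, h1 _ (tsub_le_self.trans hm)]
      apply ih f hf (by omega)
      intro m hm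
      have h2 := h1 m hm
      rw [coeff_add, el_pow_below (k + 1) _ h5 m hm, zero_add, coeff_C_mul] at h2
      have h4 : ((w.degree : A) - 2 * ((i + 1 : ℕ) : A) - k) =
          ((w.degree - 2 * (i + 1) - k : ℕ) : A) := by
        rw [Nat.cast_sub (by omega), Nat.cast_sub (by omega)]
        push_cast
        ring
      have h5 : IsUnit (((k : A) + 1) * ((w.degree : A) - 2 * ((i + 1 : ℕ) : A) - k)) := by
        rw [h4]
        have h3 : IsUnit ((k + 1 : ℕ) : A) := hu _ (Nat.succ_ne_zero k)
        push_cast at h3
        exact h3.mul (hu _ (by omega))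
      exact (h5.mul_right_eq_zero).1 h2

/-- the same for polynomials which are not homogeneous -/
lemma lef_inj' (hu : ∀ n : ℕ, n ≠ 0 → IsUnit (n : A)) {w : ι →₀ ℕ} {g k : ℕ} {f : MvPolynomial ι A}
    (hg : k + 2 * g ≤ w.degree) (hf : ∀ m : ι →₀ ℕ, g < m.degree → f.coeff m = 0)
    (h : ∀ m, m ≤ w → (el ι A ^ k * f).coeff m = 0) : ∀ m, m ≤ w → f.coeff m = 0 := by
  classical
  intro m hm
  by_cases hmg : g < m.degree
  · exact hf m hmg
  · have h1 : (homogeneousComponent m.degree f).coeff m = f.coeff m := by
      rw [coeff_homogeneousComponent, if_pos rfl]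
    rw [← h1]
    refine lef_inj hu w m.degree k _ (homogeneousComponent_isHomogeneous _ _) (by omega) ?_ m hm
    intro m' hm'
    by_cases hd : m'.degree = k + m.degree
    · have h2 : (el ι A ^ k * f).coeff m' = (el ι A ^ k * homogeneousComponent m.degree f).coeff m' := by
        have h3 : el ι A ^ k * f = ∑ i ∈ Finset.range (f.totalDegree + 1), el ι A ^ k * homogeneousComponent i f := by
          rw [← Finset.mul_sum, sum_homogeneousComponent]
        rw [h3, coeff_sum]
        by_cases hr : m.degree ∈ Finset.range (f.totalDegree + 1)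
        · rw [Finset.sum_eq_single_of_mem _ hr]
          intro i _ hi
          have h4 : (el ι A ^ k * homogeneousComponent i f).IsHomogeneous (k + i) := by
            have := (el_hom (A := A) (ι := ι)).pow k
            rw [one_mul] at this
            exact this.mul (homogeneousComponent_isHomogeneous _ _)
          exact h4.coeff_eq_zero (by omega)
        · have h5 : homogeneousComponent m.degree f = 0 := by
            apply homogeneousComponent_eq_zero
            rw [Finset.mem_range] at hr
            omega
          rw [h5, mul_zero, coeff_zero]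
          refine Finset.sum_eq_zero fun i hi => ?_
          have h4 : (el ι A ^ k * homogeneousComponent i f).IsHomogeneous (k + i) := by
            have := (el_hom (A := A) (ι := ι)).pow k
            rw [one_mul] at this
            exact this.mul (homogeneousComponent_isHomogeneous _ _)
          refine h4.coeff_eq_zero ?_
          intro he
          apply hr
          have : i = m.degree := by omega
          rw [← this]
          exact hi
      rw [← h2]
      exact h m' hm'
    · have h4 : (el ι A ^ k * homogeneousComponent m.degree f).IsHomogeneous (k + m.degree) := by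
        have := (el_hom (A := A) (ι := ι)).pow k
        rw [one_mul] at this
        exact this.mul (homogeneousComponent_isHomogeneous _ _)
      exact h4.coeff_eq_zero hd

end Pool.Agent.Run7.h388.FB
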