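import Pool.Agent.Run7.h388.FB.Fam

/-!
# Generic forms: `n + k` forms in `n` variables
-/

set_option autoImplicit false

open MvPolynomial H350MG

namespace Pool.Agent.Run7.h388.FB

noncomputable section

theorem main_blocks (K : Type) [Field K] [CharZero K] {n k D : ℕ} {a : Fin (k + n) → ℕ} (ha : ∀ i, 1 ≤ a i)
    (β : Fin n → Fin k)
    (hD : ∀ b, 2 * D ≤ a (Fin.castAdd n b) + ∑ i : {i // β i = b}, (a (Fin.natAdd k i.1) - 1)) :
    ∃ Φ : MvPolynomial (Cf (Fin n) a) K, Φ ≠ 0 ∧ ∀ c, eval c Φ ≠ 0 → ∀ j ≤ D,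
      qd (fList a (fc c)) j = E (gj (Fin n)) (List.ofFn a) j := by
  classical
  let e : Fin k → ℕ := fun b => a (Fin.castAdd n b)
  let d : Fin n → ℕ := fun i => a (Fin.natAdd k i)
  let F : Fin (k + n) → MvPolynomial (Fin n) K := Fin.append (fun b => bl K β b ^ e b) (fun i => X i ^ d i)
  have hfam := qd_blocks (K := K) (d := d) (fun i => ha _) (List.nodup_finRange n) (fun i => List.mem_finRange i) β
    (e := e) (fun b => ha _) hD (List.finRange k) (List.nodup_finRange k)
  have hlist : fList a F = bls (K := K) β e (List.finRange k) ++ mons d (List.finRange n) := by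
    unfold fList bls mons
    rw [← List.ofFn_eq_map, ← List.ofFn_eq_map, ← List.ofFn_fin_append]
    congr 1
    funext i
    refine Fin.addCases (fun b => ?_) (fun i => ?_) i
    · simp only [F, Fin.append_left, e]
    · simp only [F, Fin.append_right, d]
  have hsndF : (fList a F).map Prod.snd = List.ofFn a := by
    unfold fList
    rw [List.map_ofFn]
    rfl
  have hF : ∀ i, F i ∈ Rj K (Fin n) (a i) := by
    intro i
    refine Fin.addCases (fun b => ?_) (fun i => ?_) i
    · simp only [F, Fin.append_left]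
      have := (bl_hom (K := K) β b).pow (e b)
      rwa [one_mul] at this
    · simp only [F, Fin.append_right]
      exact isHomogeneous_X_pow i (d i)
  let c0 : Cf (Fin n) a → K := fun s => (F s.1).coeff s.2.1
  have hc0 : fc c0 = F := funext fun i => fc_coeff (f := F) (fun i => hF i) i
  choose Φ h0 hΦ using fun j => generic_J (𝕜 := K) a j c0
  refine ⟨∏ j ∈ Finset.range (D + 1), Φ j, Finset.prod_ne_zero_iff.2 fun j _ => h0 j, ?_⟩
  intro c hcc
  have hsnd : (fList a (fc c)).map Prod.snd = List.ofFn a := by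
    unfold fList
    rw [List.map_ofFn]
    rfl
  have key := qd_EQ D (fList a (fc c)) (by
    intro x hx
    obtain ⟨i, rfl⟩ := mem_fList.1 hx
    exact ⟨fc_hom c i, ha i⟩) (by
    intro j hj
    have h1 : eval c (Φ j) ≠ 0 := by
      intro h
      apply hcc
      rw [map_prod]
      exact Finset.prod_eq_zero (Finset.mem_range.2 (by omega)) h
    have h2 := hΦ j c h1
    rw [hc0] at h2
    have h3 := hfam j hj
    rw [← hlist, hsndF] at h3
    rw [hsnd, ← h3]
    have h4 : (Module.finrank K (J (fList a F) j) : ℤ) ≤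
      (Module.finrank K (J (fList a (fc c)) j) : ℤ) := by exact_mod_cast h2
    unfold qd
    linarith)
  intro j hj
  have := key j hj
  rw [hsnd] at this
  exact this

/-- the blocks `i ≡ b` modulo `k` -/
theorem card_block {n k : ℕ} (hk : 1 ≤ k) (b : Fin k) :
    n / k ≤ Fintype.card {i : Fin n // (⟨i.1 % k, Nat.mod_lt _ hk⟩ : Fin k) = b} := by
  have h1 : ∀ q : Fin (n / k), q.1 * k + b.1 < n := by
    intro q
    have h2 : (q.1 + 1) * k ≤ n / k * k := Nat.mul_le_mul_right _ q.2
    have h3 := Nat.div_mul_le_self n k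
    have h4 := b.2
    have h5 : (q.1 + 1) * k = q.1 * k + k := by ring
    omega
  have h6 : ∀ q : Fin (n / k), (⟨(q.1 * k + b.1) % k, Nat.mod_lt _ hk⟩ : Fin k) = b := by
    intro q
    apply Fin.ext
    change (q.1 * k + b.1) % k = b.1
    rw [Nat.add_comm, Nat.add_mul_mod_self_right, Nat.mod_eq_of_lt b.2]
  have h7 := Fintype.card_le_of_injective
    (fun q : Fin (n / k) => (⟨⟨q.1 * k + b.1, h1 q⟩, h6 q⟩ : {i : Fin n // (⟨i.1 % k, Nat.mod_lt _ hk⟩ : Fin k) = b})) (by
      intro q q' h
      have h8 : q.1 * k + b.1 = q'.1 * k + b.1 := congrArg (fun x => x.1.1) h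
      apply Fin.ext
      exact Nat.eq_of_mul_eq_mul_right hk (by omega))
  rwa [Fintype.card_fin] at h7

end

end Pool.Agent.Run7.h388.FB
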