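import Pool.Agent.Run7.h388.FB.Lef

/-!
# One block of variables: a power of the sum of the variables of the block is regular in small degrees
-/

set_option autoImplicit false
set_option linter.unusedSectionVars false

open MvPolynomial

namespace Pool.Agent.Run7.h388.FB

variable {K : Type} [Field K] {σ : Type} [Fintype σ] [DecidableEq σ] (p : σ → Prop) [DecidablePred p]

/-- the variables with the property `p` as variables over the polynomials in the others -/
noncomputable def split : MvPolynomial σ K →ₐ[K] MvPolynomial {i // p i} (MvPolynomial {i // ¬ p i} K) :=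
  aeval fun i => if h : p i then X ⟨i, h⟩ else C (X ⟨i, h⟩)

/-- the inverse map -/
noncomputable def unsplit : MvPolynomial {i // p i} (MvPolynomial {i // ¬ p i} K) →+* MvPolynomial σ K :=
  eval₂Hom (rename (Subtype.val : {i // ¬ p i} → σ) : MvPolynomial {i // ¬ p i} K →ₐ[K] MvPolynomial σ K).toRingHom
    (fun b => X b.1)

lemma split_X {i : σ} (h : p i) : split p (X i : MvPolynomial σ K) = X ⟨i, h⟩ := by
  unfold split
  rw [aeval_X, dif_pos h]

lemma split_X' {i : σ} (h : ¬ p i) : split p (X i : MvPolynomial σ K) = C (X ⟨i, h⟩) := by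
  unfold split
  rw [aeval_X, dif_neg h]

lemma unsplit_split (P : MvPolynomial σ K) : unsplit p (split p P) = P := by
  have h : ((unsplit p).comp (split (K := K) p).toRingHom) = RingHom.id _ := by
    apply MvPolynomial.ringHom_ext
    · intro c
      have e : split p (C c : MvPolynomial σ K) = C (C c) := by
        unfold split
        rw [algHom_C]
        rfl
      rw [RingHom.comp_apply]
      change unsplit p (split p (C c)) = C c
      rw [e]
      unfold unsplit
      rw [coe_eval₂Hom, eval₂_C]
      change rename _ (C c) = C c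
      rw [rename_C]
    · intro i
      rw [RingHom.comp_apply]
      change unsplit p (split p (X i)) = X i
      by_cases h : p i
      · rw [split_X p h]
        unfold unsplit
        rw [coe_eval₂Hom, eval₂_X]
      · rw [split_X' p h]
        unfold unsplit
        rw [coe_eval₂Hom, eval₂_C]
        change rename _ (X _) = X i
        rw [rename_X]
  exact congrArg (fun f : MvPolynomial σ K →+* MvPolynomial σ K => f P) h

lemma split_rename (g : MvPolynomial {i // ¬ p i} K) :
    split p (rename (Subtype.val : {i // ¬ p i} → σ) g) = C g := by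
  induction g using MvPolynomial.induction_on with
  | C a =>
    rw [rename_C]
    unfold split
    rw [algHom_C]
    rfl
  | add f g hf hg => rw [map_add, map_add, hf, hg, map_add]
  | mul_X g i hg => rw [map_mul, map_mul, hg, rename_X, split_X' p i.2, map_mul]

variable {p} in
lemma coeff_split_mem {d : σ → ℕ} {G : Set (MvPolynomial σ K)}
    (hG : ∀ g ∈ G, (∃ i, p i ∧ g = X i ^ d i) ∨ ∃ g', g = rename (Subtype.val : {i // ¬ p i} → σ) g')
    {P : MvPolynomial σ K} (hP : P ∈ Ideal.span G) : ∀ m : {i // p i} →₀ ℕ, (∀ b, m b < d b) →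
      rename (Subtype.val : {i // ¬ p i} → σ) (coeff m (split p P)) ∈ Ideal.span G := by
  classical
  induction hP using Submodule.span_induction with
  | mem g hg =>
    intro m hm
    rcases hG g hg with ⟨i, hi, rfl⟩ | ⟨g', rfl⟩
    · rw [map_pow, split_X p hi, coeff_X_pow, if_neg, map_zero]
      · exact Ideal.zero_mem _
      · intro h
        have := hm ⟨i, hi⟩
        rw [← h, Finsupp.single_eq_same] at this
        exact absurd this (lt_irrefl _)
    · rw [split_rename, coeff_C]
      split_ifs
      · exact Ideal.subset_span hg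
      · rw [map_zero]
        exact Ideal.zero_mem _
  | zero =>
    intro m _
    rw [map_zero, coeff_zero, map_zero]
    exact Ideal.zero_mem _
  | add x y _ _ hx hy =>
    intro m hm
    rw [map_add, coeff_add, map_add]
    exact Ideal.add_mem _ (hx m hm) (hy m hm)
  | smul a x _ hx =>
    intro m hm
    rw [smul_eq_mul, map_mul, coeff_mul, map_sum]
    refine Ideal.sum_mem _ fun q hq => ?_
    rw [map_mul]
    refine Ideal.mul_mem_left _ _ (hx q.2 fun b => ?_)
    have h1 := Finset.HasAntidiagonal.mem_antidiagonal.1 hq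
    have h2 := hm b
    rw [← h1, Finsupp.add_apply] at h2
    omega

variable {p} in
lemma mem_of_coeff {d : σ → ℕ} {I : Ideal (MvPolynomial σ K)} (hB : ∀ i, p i → X i ^ d i ∈ I)
    {P : MvPolynomial σ K} (h : ∀ m : {i // p i} →₀ ℕ, (∀ b, m b < d b) →
      rename (Subtype.val : {i // ¬ p i} → σ) (coeff m (split p P)) ∈ I) : P ∈ I := by
  classical
  rw [← unsplit_split p P, (split p P).as_sum, map_sum]
  refine Ideal.sum_mem _ fun m _ => ?_
  unfold unsplit
  rw [coe_eval₂Hom, eval₂_monomial]
  by_cases hm : ∀ b, m b < d b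
  · exact Ideal.mul_mem_right _ _ (h m hm)
  · push Not at hm
    obtain ⟨b, hb⟩ := hm
    apply Ideal.mul_mem_left
    rw [Finsupp.prod_fintype _ _ fun i => pow_zero _]
    refine Ideal.mem_of_dvd _ ?_ (hB b.1 b.2)
    exact (pow_dvd_pow _ hb).trans (Finset.dvd_prod_of_mem (fun i : {i // p i} => (X i.1 : MvPolynomial σ K) ^ m i)
      (Finset.mem_univ b))

variable {p} in
lemma coeff_split_deg {g : ℕ} {P : MvPolynomial σ K} (hP : P.totalDegree ≤ g) {m : {i // p i} →₀ ℕ}
    (hm : g < m.degree) : coeff m (split p P) = 0 := by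
  classical
  apply coeff_eq_zero_of_totalDegree_lt
  refine lt_of_le_of_lt ?_ hm
  unfold split
  rw [aeval_def, eval₂_eq']
  refine (totalDegree_finsetSum _ _).trans (Finset.sup_le fun s hs => ?_)
  refine (totalDegree_mul _ _).trans ?_
  have e : (algebraMap K (MvPolynomial {i // p i} (MvPolynomial {i // ¬ p i} K))) (coeff s P) = C (C (coeff s P)) := rfl
  rw [e, totalDegree_C, zero_add]
  refine (totalDegree_finsetProd _ _).trans ?_
  have h1 : ∑ i, s i ≤ g := by
    refine le_trans ?_ hP
    have := le_totalDegree hs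
    rw [Finsupp.sum_fintype _ _ fun i => rfl] at this
    exact this
  refine le_trans (Finset.sum_le_sum fun i _ => ?_) h1
  refine (totalDegree_pow _ _).trans ?_
  split_ifs with h
  · rw [totalDegree_X, mul_one]
  · rw [totalDegree_C, mul_zero]
    exact Nat.zero_le _

variable {p} in
/-- **a power of the sum of the variables of a block is regular in small degrees** -/
theorem block_regular [CharZero K] {d : σ → ℕ} {G : Set (MvPolynomial σ K)} (hd : ∀ i, 1 ≤ d i)
    (hG : ∀ g ∈ G, (∃ i, p i ∧ g = X i ^ d i) ∨ ∃ g', g = rename (Subtype.val : {i // ¬ p i} → σ) g')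
    (hB : ∀ i, p i → X i ^ d i ∈ Ideal.span G) {e g : ℕ} {P : MvPolynomial σ K} (hP : P.totalDegree ≤ g)
    (he : e + 2 * g ≤ ∑ i : {i // p i}, (d i - 1)) (h : (∑ i : {i // p i}, X i.1) ^ e * P ∈ Ideal.span G) :
    P ∈ Ideal.span G := by
  classical
  let I : Ideal (MvPolynomial {i // ¬ p i} K) := (Ideal.span G).comap (rename (Subtype.val : {i // ¬ p i} → σ) :
    MvPolynomial {i // ¬ p i} K →ₐ[K] MvPolynomial σ K).toRingHom
  let w : {i // p i} →₀ ℕ := Finsupp.equivFunOnFinite.symm fun i => d i - 1
  have hw : w.degree = ∑ i : {i // p i}, (d i - 1) := by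
    rw [Finsupp.degree_eq_sum]
    rfl
  have hu : ∀ n : ℕ, n ≠ 0 → IsUnit ((n : ℕ) : MvPolynomial {i // ¬ p i} K ⧸ I) := by
    intro n hn
    have h1 : IsUnit (n : K) := IsUnit.mk0 _ (by exact_mod_cast hn)
    have h2 := (h1.map (C : K →+* MvPolynomial {i // ¬ p i} K)).map (Ideal.Quotient.mk I)
    rwa [map_natCast, map_natCast] at h2
  let Q := map (Ideal.Quotient.mk I) (split p P)
  have hQ : ∀ m, coeff m Q = Ideal.Quotient.mk I (coeff m (split p P)) := fun m => coeff_map _ _ _
  have hmul : map (Ideal.Quotient.mk I) (split p ((∑ i : {i // p i}, X i.1) ^ e * P)) =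
      el {i // p i} (MvPolynomial {i // ¬ p i} K ⧸ I) ^ e * Q := by
    rw [map_mul, map_pow, map_sum, map_mul, map_pow, map_sum]
    congr 2
    unfold el
    refine Finset.sum_congr rfl fun i _ => ?_
    rw [split_X p i.2, map_X]
  have h1 := lef_inj' hu (w := w) (g := g) (k := e) (f := Q) (by rw [hw]; exact he) (fun m hm => by
    rw [hQ, coeff_split_deg hP hm, map_zero]) (fun m hm => by
    rw [← hmul, coeff_map]
    rw [Ideal.Quotient.eq_zero_iff_mem]
    refine coeff_split_mem hG h m fun b => ?_
    have h2 : m b ≤ d b - 1 := hm b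
    have h3 := hd b
    omega)
  refine mem_of_coeff hB fun m hm => ?_
  have h4 := h1 m (fun b => by
    have h2 := hm b
    change m b ≤ d b - 1
    omega)
  rw [hQ, Ideal.Quotient.eq_zero_iff_mem] at h4
  exact h4

end Pool.Agent.Run7.h388.FB
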